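import Mathlib

set_option autoImplicit false

namespace Pool.Agent.Results.MP_68514f_co.ParityObstruction

open Finset

/-- A mixed graph: undirected edges together with arcs. -/
structure MixedGraph (V : Type) where
  edge : SimpleGraph V
  arc : V → V → Prop

/-- Every vertex has undirected degree `r`, out-degree `z` and in-degree `z`. -/
def TotallyRegular {V : Type} (G : MixedGraph V) (r z : ℕ) : Prop :=
  ∀ v, {w | G.edge.Adj v w}.ncard = r ∧ {w | G.arc v w}.ncard = z ∧ {w | G.arc w v}.ncard = z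

/-- There is a walk of length at most `n` from `u` to `v`, using edges and forward arcs. -/
def Within {V : Type} (G : MixedGraph V) : ℕ → V → V → Prop
  | 0, u, v => u = v
  | n + 1, u, v => Within G n u v ∨ ∃ w, Within G n u w ∧ (G.edge.Adj w v ∨ G.arc w v)

/-- The out-eccentricity of `u` is at most `n`. -/
def EccLE {V : Type} (G : MixedGraph V) (n : ℕ) (u : V) : Prop := ∀ v, Within G n u v

/-- `N_0 = 1`, `N_1 = r + z`, `N_{i+2} = (r + z - 1) N_{i+1} + z N_i`. -/
def N (r z : ℕ) : ℕ → ℕ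
  | 0 => 1
  | 1 => r + z
  | i + 2 => (r + z - 1) * N r z (i + 1) + z * N r z i

/-- The mixed Moore bound. -/
def M (r z k : ℕ) : ℕ := ∑ i ∈ range (k + 1), N r z i

/-- An `(r,z,k)`-mixed radial Moore graph (for `k ≥ 1`): totally `(r,z)`-regular, radius `k`,
diameter `k + 1`, order `M(r,z,k)`. -/
def IsRadialMoore {V : Type} [Fintype V] (G : MixedGraph V) (r z k : ℕ) : Prop :=
  TotallyRegular G r z ∧
  ((∃ u, EccLE G k u) ∧ ∀ u, ¬ EccLE G (k - 1) u) ∧
  ((∀ u, EccLE G (k + 1) u) ∧ ∃ u, ¬ EccLE G k u) ∧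
  Fintype.card V = M r z k

lemma N_parity (r z : ℕ) (hr : r % 2 = 1) (hz : z % 2 = 1) : ∀ i : ℕ,
    N r z i % 2 = (if i % 3 = 1 then 0 else 1) ∧
    N r z (i + 1) % 2 = (if (i + 1) % 3 = 1 then 0 else 1) := by
  intro i
  induction i with
  | zero =>
    refine ⟨by simp [N], ?_⟩
    simp [N]
    omega
  | succ i ih =>
    refine ⟨ih.2, ?_⟩
    have h1 : N r z (i + 1 + 1) = (r + z - 1) * N r z (i + 1) + z * N r z i := rfl
    have h2 : (r + z - 1) % 2 = 1 := by omega
    rw [h1, Nat.add_mod, Nat.mul_mod, h2, Nat.mul_mod z, hz, ih.1, ih.2]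
    have h3 : i % 3 = 0 ∨ i % 3 = 1 ∨ i % 3 = 2 := by omega
    rcases h3 with h | h | h
    · have e1 : (i + 1) % 3 = 1 := by omega
      have e2 : (i + 1 + 1) % 3 = 2 := by omega
      simp [h, e1, e2]
    · have e1 : (i + 1) % 3 = 2 := by omega
      have e2 : (i + 1 + 1) % 3 = 0 := by omega
      simp [h, e1, e2]
    · have e1 : (i + 1) % 3 = 0 := by omega
      have e2 : (i + 1 + 1) % 3 = 1 := by omega
      simp [h, e1, e2]

lemma M_parity (r z : ℕ) (hr : r % 2 = 1) (hz : z % 2 = 1) (k : ℕ) :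
    M r z k % 2 = (if k % 3 = 2 then 0 else 1) := by
  induction k with
  | zero => simp [M, N]
  | succ k ih =>
    have h1 : M r z (k + 1) = M r z k + N r z (k + 1) := by
      unfold M
      rw [Finset.sum_range_succ]
    rw [h1, Nat.add_mod, ih, (N_parity r z hr hz k).2]
    have h3 : k % 3 = 0 ∨ k % 3 = 1 ∨ k % 3 = 2 := by omega
    rcases h3 with h | h | h
    · have e1 : (k + 1) % 3 = 1 := by omega
      simp [h, e1]
    · have e1 : (k + 1) % 3 = 2 := by omega
      simp [h, e1]
    · have e1 : (k + 1) % 3 = 0 := by omega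
      simp [h, e1]

/-- If `r` and `z` are odd and `k` is not congruent to `2` modulo `3`, then there is no
`(r,z,k)`-mixed radial Moore graph. -/
theorem result (r z k : ℕ) (hr : Odd r) (hz : Odd z) (hk : 2 ≤ k) (hk3 : k % 3 ≠ 2) :
    ¬ ∃ (V : Type) (_ : Fintype V) (G : MixedGraph V), IsRadialMoore G r z k := by
  classical
  rintro ⟨V, _, G, hreg, -, -, hcard⟩
  have h := G.edge.sum_degrees_eq_twice_card_edges
  have hdeg : ∀ v, G.edge.degree v = r := by
    intro v
    rw [← (hreg v).1, ← SimpleGraph.card_neighborFinset_eq_degree, ← Set.ncard_coe_finset,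
      SimpleGraph.coe_neighborFinset]
    rfl
  simp only [hdeg, Finset.sum_const, Finset.card_univ, smul_eq_mul] at h
  rw [hcard] at h
  have hM : M r z k % 2 = 1 := by
    rw [M_parity r z (Nat.odd_iff.mp hr) (Nat.odd_iff.mp hz) k, if_neg hk3]
  have h2 : Odd (M r z k * r) := (Nat.odd_iff.mpr hM).mul hr
  rw [h] at h2
  rcases h2 with ⟨m, hm⟩
  omega

end Pool.Agent.Results.MP_68514f_co.ParityObstruction
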